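import Mathlib

set_option autoImplicit false

namespace Pool.Agent.Results.MP_6a28f0_gt.Yes

open Set Filter Topology

universe u

/-- open cover -/
def IsCover {X : Type u} [TopologicalSpace X] (𝒰 : Set (Set X)) : Prop :=
  (∀ U ∈ 𝒰, IsOpen U) ∧ ⋃₀ 𝒰 = univ

/-- weakly Lindelof -/
def WL (X : Type u) [TopologicalSpace X] : Prop :=
  ∀ 𝒰 : Set (Set X), IsCover 𝒰 → ∃ 𝒱 ⊆ 𝒰, 𝒱.Countable ∧ Dense (⋃₀ 𝒱)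

/-- weakly Menger -/
def WM (X : Type u) [TopologicalSpace X] : Prop :=
  ∀ 𝒰 : ℕ → Set (Set X), (∀ n, IsCover (𝒰 n)) → ∃ 𝒱 : ℕ → Set (Set X),
    (∀ n, 𝒱 n ⊆ 𝒰 n ∧ (𝒱 n).Finite) ∧ Dense (⋃ n, ⋃₀ 𝒱 n)

/-- weakly Scheepers -/
def WS (X : Type u) [TopologicalSpace X] : Prop :=
  ∀ 𝒰 : ℕ → Set (Set X), (∀ n, IsCover (𝒰 n)) → ∃ 𝒱 : ℕ → Set (Set X),
    (∀ n, 𝒱 n ⊆ 𝒰 n ∧ (𝒱 n).Finite) ∧ ∀ ℱ : Set (Set X), ℱ.Finite →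
      (∀ U ∈ ℱ, IsOpen U ∧ U.Nonempty) → {n | ∀ U ∈ ℱ, (U ∩ ⋃₀ 𝒱 n).Nonempty}.Infinite

/-- weakly Hurewicz -/
def WH (X : Type u) [TopologicalSpace X] : Prop :=
  ∀ 𝒰 : ℕ → Set (Set X), (∀ n, IsCover (𝒰 n)) → ∃ 𝒱 : ℕ → Set (Set X),
    (∀ n, 𝒱 n ⊆ 𝒰 n ∧ (𝒱 n).Finite) ∧ ∀ U : Set X, IsOpen U → U.Nonempty →
      {n | ¬ (U ∩ ⋃₀ 𝒱 n).Nonempty}.Finite

theorem WH.ws {X : Type u} [TopologicalSpace X] (h : WH X) : WS X := by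
  intro 𝒰 h𝒰
  obtain ⟨𝒱, h1, h2⟩ := h 𝒰 h𝒰
  refine ⟨𝒱, h1, fun ℱ hf ho => ?_⟩
  have := (hf.biUnion fun U hU => h2 U (ho U hU).1 (ho U hU).2).infinite_compl
  refine this.mono fun n hn U hU => ?_
  by_contra hc
  exact hn (mem_biUnion hU hc)

theorem WH.wm {X : Type u} [TopologicalSpace X] (h : WH X) : WM X := by
  intro 𝒰 h𝒰
  obtain ⟨𝒱, h1, h2⟩ := h 𝒰 h𝒰
  refine ⟨𝒱, h1, dense_iff_inter_open.2 fun U hU hne => ?_⟩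
  obtain ⟨n, hn⟩ := (h2 U hU hne).infinite_compl.nonempty
  obtain ⟨x, hx, hx'⟩ := not_not.1 hn
  exact ⟨x, hx, mem_iUnion.2 ⟨n, hx'⟩⟩

theorem fin {Z : Type u} [TopologicalSpace Z] {Y K : Set Z} (hK : IsCompact K) (hKY : K ⊆ Y)
    {𝒪 : Set (Set Y)} (h : IsCover 𝒪) : ∃ 𝒱 ⊆ 𝒪, 𝒱.Finite ∧ ∃ O : Set Z, IsOpen O ∧ K ⊆ O ∧
      (Subtype.val : Y → Z) ⁻¹' O ⊆ ⋃₀ 𝒱 := by
  have hc : IsCompact ((Subtype.val : Y → Z) ⁻¹' K) := by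
    rw [Subtype.isCompact_iff, Subtype.image_preimage_coe, inter_eq_right.2 hKY]
    exact hK
  obtain ⟨𝒱, h1, h2, h3⟩ := hc.elim_finite_subcover_image (b := 𝒪) (c := id) h.1 (by
    intro y _
    have : y ∈ ⋃₀ 𝒪 := h.2 ▸ mem_univ y
    simpa using this)
  have ho : IsOpen (⋃₀ 𝒱) := isOpen_sUnion fun V hV => h.1 V (h1 hV)
  obtain ⟨O, hO, he⟩ := isOpen_induced_iff.1 ho
  refine ⟨𝒱, h1, h2, O, hO, fun z hz => ?_, he.subset⟩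
  have : (⟨z, hKY hz⟩ : Y) ∈ ⋃₀ 𝒱 := by simpa using h3 (show (⟨z, hKY hz⟩ : Y) ∈ _ from hz)
  rw [← he] at this
  exact this

section
variable {X : Type u} [TopologicalSpace X]

/-- nonempty open sets -/
abbrev D (X : Type u) [TopologicalSpace X] : Type u := {W : Set X // IsOpen W ∧ W.Nonempty}

def A (U : Set X) : Set (D X) := {d | ¬ (d.1 ∩ U).Nonempty}

def C (g : ℕ → Set (Set X)) : Set (D X) := {d | ∀ n, (d.1 ∩ ⋃₀ g n).Nonempty}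

def Sel (𝒰 g : ℕ → Set (Set X)) : Prop := ∀ n, g n ⊆ 𝒰 n ∧ (g n).Finite

def Y (𝒰 : ℕ → Set (Set X)) : Set (Ultrafilter (D X)) :=
  {u | (∃ n, ∀ U ∈ 𝒰 n, A U ∈ u) ∨ ∃ g, Sel 𝒰 g ∧ C g ∈ u}

theorem pure_mem {𝒰 : ℕ → Set (Set X)} (h : ∀ n, IsCover (𝒰 n)) (d : D X) : pure d ∈ Y 𝒰 := by
  obtain ⟨x, hx⟩ := d.2.2
  have : ∀ n, ∃ U ∈ 𝒰 n, x ∈ U := fun n => mem_sUnion.1 ((h n).2 ▸ mem_univ x)
  choose U h1 h2 using this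
  refine Or.inr ⟨fun n => {U n}, fun n => ⟨singleton_subset_iff.2 (h1 n), finite_singleton _⟩, ?_⟩
  exact Ultrafilter.mem_pure.2 fun n => ⟨x, hx, by simpa using h2 n⟩

theorem wl_Y {𝒰 : ℕ → Set (Set X)} (h : ∀ n, IsCover (𝒰 n)) : WL (Y 𝒰) := by
  intro 𝒪 h𝒪
  have h1 : ∀ n, ∃ 𝒱 ⊆ 𝒪, 𝒱.Finite ∧ ∃ g ⊆ 𝒰 n, g.Finite ∧ ∀ d : D X,
      ¬ (d.1 ∩ ⋃₀ g).Nonempty → (⟨pure d, pure_mem h d⟩ : Y 𝒰) ∈ ⋃₀ 𝒱 := by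
    intro n
    have hcl : IsClosed (⋂ U : 𝒰 n, {u : Ultrafilter (D X) | A U.1 ∈ u}) :=
      isClosed_iInter fun U => ultrafilter_isClosed_basic _
    obtain ⟨𝒱, a1, a2, O, a3, a4, a5⟩ := fin (Y := Y 𝒰) hcl.isCompact
      (fun u hu => Or.inl ⟨n, fun U hU => mem_iInter.1 hu ⟨U, hU⟩⟩) h𝒪
    obtain ⟨t, ht⟩ := a3.isClosed_compl.isCompact.elim_finite_subfamily_closed
      (fun U : 𝒰 n => {u : Ultrafilter (D X) | A U.1 ∈ u})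
      (fun U => ultrafilter_isClosed_basic _)
      (eq_empty_of_forall_notMem fun u hu => hu.1 (a4 hu.2))
    refine ⟨𝒱, a1, a2, Subtype.val '' (t : Set (𝒰 n)), ?_, t.finite_toSet.image _, ?_⟩
    · rintro _ ⟨U, -, rfl⟩
      exact U.2
    · intro d hd
      apply a5
      by_contra hc
      refine eq_empty_iff_forall_notMem.1 ht (pure d) ⟨hc, mem_iInter₂.2 fun U hU => ?_⟩
      refine Ultrafilter.mem_pure.2 fun ⟨x, hx, hx'⟩ => hd ⟨x, hx, U.1, ⟨U, hU, rfl⟩, hx'⟩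
  choose 𝒱 a1 a2 g a3 a4 a5 using h1
  obtain ⟨𝒲, b1, b2, O, -, b4, b5⟩ := fin (Y := Y 𝒰) (ultrafilter_isClosed_basic (C g)).isCompact
    (fun u hu => Or.inr ⟨g, fun n => ⟨a3 n, a4 n⟩, hu⟩) h𝒪
  refine ⟨𝒲 ∪ ⋃ n, 𝒱 n, union_subset b1 (iUnion_subset a1),
    b2.countable.union (countable_iUnion fun n => (a2 n).countable),
    dense_iff_inter_open.2 fun V hV ⟨y, hy⟩ => ?_⟩
  obtain ⟨V', hV', rfl⟩ := isOpen_induced_iff.1 hV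
  obtain ⟨d, hd⟩ := denseRange_pure.exists_mem_open hV' ⟨y.1, hy⟩
  refine ⟨⟨pure d, pure_mem h d⟩, hd, ?_⟩
  by_cases hc : d ∈ C g
  · obtain ⟨S, hS, hS'⟩ := b5 (show (⟨pure d, pure_mem h d⟩ : Y 𝒰) ∈ _ from
      b4 (Ultrafilter.mem_pure.2 hc))
    exact ⟨S, Or.inl hS, hS'⟩
  · obtain ⟨n, hn⟩ := not_forall.1 hc
    obtain ⟨S, hS, hS'⟩ := a5 n d hn
    exact ⟨S, Or.inr (mem_iUnion.2 ⟨n, hS⟩), hS'⟩

theorem main (hX : ∀ (Z : Type u) [TopologicalSpace Z] [T35Space Z], WL Z → WL (X × Z)) :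
    WH X := by
  intro 𝒰 h
  have ho : ∀ S : Set (D X), IsOpen {y : Y 𝒰 | S ∈ y.1} := fun S =>
    (ultrafilter_isOpen_basic S).preimage continuous_subtype_val
  obtain ⟨𝒱, h1, h2, h3⟩ := hX (Y 𝒰) (wl_Y h)
    ({S | ∃ n, ∃ U ∈ 𝒰 n, S = U ×ˢ {y : Y 𝒰 | A U ∈ y.1}} ∪
      {S | ∃ g, Sel 𝒰 g ∧ S = univ ×ˢ {y : Y 𝒰 | C g ∈ y.1}}) ⟨by
        rintro S (⟨n, U, hU, rfl⟩ | ⟨g, -, rfl⟩)
        · exact ((h n).1 U hU).prod (ho _)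
        · exact isOpen_univ.prod (ho _), by
        refine eq_univ_of_forall fun ⟨x, y⟩ => ?_
        rcases y.2 with ⟨n, hn⟩ | ⟨g, hg, hg'⟩
        · obtain ⟨U, hU, hx⟩ := mem_sUnion.1 ((h n).2 ▸ mem_univ x)
          exact ⟨_, Or.inl ⟨n, U, hU, rfl⟩, hx, hn U hU⟩
        · exact ⟨_, Or.inr ⟨g, hg, rfl⟩, trivial, hg'⟩⟩
  obtain ⟨f, hf⟩ : ∃ f : ℕ → Set (X × Y 𝒰), 𝒱 ⊆ range f := countable_iff_exists_subset_range.1 h2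
  have h4 : ∀ k, ∃ g, Sel 𝒰 g ∧ ∀ g', Sel 𝒰 g' → f k = univ ×ˢ {y : Y 𝒰 | C g' ∈ y.1} →
      f k = univ ×ˢ {y : Y 𝒰 | C g ∈ y.1} := by
    intro k
    by_cases hk : ∃ g, Sel 𝒰 g ∧ f k = univ ×ˢ {y : Y 𝒰 | C g ∈ y.1}
    · obtain ⟨g, hg, hg'⟩ := hk
      exact ⟨g, hg, fun _ _ _ => hg'⟩
    · exact ⟨fun _ => ∅, fun n => ⟨empty_subset _, finite_empty⟩,
        fun g' a b => absurd ⟨g', a, b⟩ hk⟩
  choose g h5 h6 using h4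
  refine ⟨fun n => ⋃ k ∈ Iic n, g k n, fun n => ⟨iUnion₂_subset fun k _ => (h5 k n).1,
    (finite_Iic n).biUnion fun k _ => (h5 k n).2⟩, fun W hW hne => ?_⟩
  let d : D X := ⟨W, hW, hne⟩
  obtain ⟨x, hx⟩ := hne
  obtain ⟨⟨z, y⟩, ⟨a1, a2⟩, S, a3, a4⟩ := h3.inter_open_nonempty _ (hW.prod (ho {d}))
    ⟨(x, ⟨pure d, pure_mem h d⟩), hx, Ultrafilter.mem_pure.2 rfl⟩
  have hd : ∀ T : Set (D X), T ∈ y.1 → d ∈ T := fun T hT => by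
    obtain ⟨e, he, he'⟩ := Ultrafilter.nonempty_of_mem (inter_mem (f := (y.1 : Filter (D X))) a2 hT)
    exact he ▸ he'
  rcases h1 a3 with ⟨n, U, -, rfl⟩ | ⟨g', hg', rfl⟩
  · exact absurd ⟨z, a1, a4.1⟩ (hd _ a4.2)
  · obtain ⟨k, hk⟩ := hf a3
    rw [← hk, h6 k g' hg' hk] at a4
    refine (finite_Iio k).subset fun n hn => ?_
    by_contra hc
    obtain ⟨w, hw, V, hV, hV'⟩ := hd _ a4.2 n
    exact hn ⟨w, hw, V, mem_biUnion (mem_Iic.2 (not_lt.1 fun hh => hc (mem_Iio.2 hh))) hV, hV'⟩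

end

theorem result (X : Type u) [TopologicalSpace X] :
    ((∀ (Y : Type u) [TopologicalSpace Y], WL Y → WL (X × Y)) → WS X ∧ WM X ∧ WH X) ∧
    ((∀ (Y : Type u) [TopologicalSpace Y] [T35Space Y], WL Y → WL (X × Y)) →
      WS X ∧ WM X ∧ WH X) :=
  ⟨fun h => have := main fun Z _ _ hZ => h Z hZ
    ⟨this.ws, this.wm, this⟩, fun h => ⟨(main h).ws, (main h).wm, main h⟩⟩

end Pool.Agent.Results.MP_6a28f0_gt.Yes
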